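import Pool.Agent.Zk38.Ht.D
import Pool.Agent.R482.ST.Star

/-!
# Heights and passage times of ALL odd integers near the powers and orbits of almost every number

Let `e(β) < 1` be the exponent of the number of the odd integers `m ≤ x` of height at most `β log x`, for
`β < 2 / log (16 / 9) = 3.476…` (starting file `HeightCountsToTheMean`). For almost every `α > 1`, all
`β < 2 / log (16 / 9)` and `θ < 1 - e(β)`: for all large `n`, ALL odd integers `m` within `α ^ (θ n)` of `α ^ n` have a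
height larger than `β log m`; and for every `ε > 0` ALL odd integers `m` within `α ^ (σ n)` of `α ^ n`, `σ = σ(ε) > 0`, pass
below `m ^ t` after `(1 - t) (2 / log (16 / 9) + O(ε)) log m` steps, for all `ε ≤ t ≤ 1`. So the height above `m ^ t`, the
part of the height which can be controlled at present, has the conjectured order at ALL odd integers of these windows. The
windows form a set of integers with only `X ^ (1 - c)` members up to `X`, or with powers of `log X` many, and the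
exceptional sets have a power of `X` members; so this does not follow from results for almost all `m`. The same holds near
the orbits of all maps `g` with `g x > x` and `g x / x` nondecreasing, and near other sequences of functions.
-/

set_option autoImplicit false

open MeasureTheory
open Pool.Agent.R482.ST (Starshaped Conv)
open Pool.Agent.Zk38.Hts (Tall OnCourse Case e)

namespace Pool.Agent.Results.MP_2b866c_nt.HeightsNearPowers

lemma null_of_dim {F : Set ℝ} {d : ℝ} (h : dimH F ≤ ENNReal.ofReal d) (hd : d < 1) : volume F = 0 := by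
  have hF1 : dimH F < ((1 : NNReal) : ENNReal) := by
    refine lt_of_le_of_lt h ?_
    rw [ENNReal.coe_one, ← ENNReal.ofReal_one]
    exact (ENNReal.ofReal_lt_ofReal_iff one_pos).2 hd
  have h3 := hausdorffMeasure_of_dimH_lt hF1
  rw [NNReal.coe_one, hausdorffMeasure_real] at h3
  exact h3

/-- **Theorem.** There is a function `σ` with `0 < σ(ε) < 1` such that, with `e(β)` as in the definition, `0 < e(β) < 1` for
`0 < β < 2 / log (16 / 9)`:

(1) Let `P` be one of the properties of `Case` with the exponent `s`: `P m` is the height of `m` is larger than `β log m`,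
`0 < β < 2 / log (16 / 9)` and `s = e(β)`; or `P m` is `OnCourse ε m`, `ε > 0` and `s = 1 - σ(ε)`. Let `f_n` be positive
functions on `(a, ∞)`, `a ≥ 0`, such that `f_n(x) / x` is nondecreasing and the series of `f_n(x) ^ (-u)` converges for
`u > τ`, and let `θ < 1`. For each `α > a` outside a set of Hausdorff dimension at most `(s + τ) / (1 - θ)`, for all `B` and
all large `n`, ALL odd integers `m` with `|m - f_n(α)| ≤ B f_n(α) ^ θ` have the property `P`.

(2) If this holds with `τ = 0`, then for almost every `α > a`: for all `0 < β < 2 / log (16 / 9)`, `θ < 1 - e(β)`, `B` and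
all large `n`, ALL odd integers `m` with `|m - f_n(α)| ≤ B f_n(α) ^ θ` have a height larger than `β log m`; and for all
`ε > 0`, `B` and all large `n`, ALL odd integers `m` with `|m - f_n(α)| ≤ B f_n(α) ^ σ(ε)` have the property `OnCourse ε`.

(3) Examples for (2): `f_n(x) = x ^ (v_n)` on `(1, ∞)`, where `v_n ≥ 1` and the series of `exp (-t v_n)` converges for all
`t > 0`, for instance `v_n = n`; and `f_n(x) = g^[n] x`, where `g x > x` and `g x / x` is nondecreasing on `(a, ∞)`. -/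
theorem result : ∃ σ : ℝ → ℝ, (∀ ε : ℝ, 0 < ε → 0 < σ ε ∧ σ ε < 1) ∧
    (∀ β : ℝ, 0 < β → β < 2 / Real.log (16 / 9) → 0 < e β ∧ e β < 1) ∧
    (∀ (s : ℝ) (P : ℕ → Prop), Case σ s P → ∀ (a τ θ : ℝ) (f : ℕ → ℝ → ℝ), Starshaped a f → 0 ≤ τ → Conv a f τ → θ < 1 →
      ∃ F : Set ℝ, dimH F ≤ ENNReal.ofReal ((s + τ) / (1 - θ)) ∧ ∀ α : ℝ, a < α → α ∉ F → ∀ B : ℝ,
        ∃ n₀ : ℕ, ∀ n : ℕ, n₀ ≤ n → ∀ m : ℕ, m % 2 = 1 → |(m : ℝ) - f n α| ≤ B * (f n α) ^ θ → P m) ∧
    (∀ (a : ℝ) (f : ℕ → ℝ → ℝ), Starshaped a f → Conv a f 0 → ∀ᵐ α : ℝ, a < α →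
      (∀ β θ : ℝ, 0 < β → β < 2 / Real.log (16 / 9) → θ < 1 - e β → ∀ B : ℝ, ∃ n₀ : ℕ, ∀ n : ℕ, n₀ ≤ n →
        ∀ m : ℕ, m % 2 = 1 → |(m : ℝ) - f n α| ≤ B * (f n α) ^ θ → Tall β m) ∧
      (∀ ε : ℝ, 0 < ε → ∀ B : ℝ, ∃ n₀ : ℕ, ∀ n : ℕ, n₀ ≤ n →
        ∀ m : ℕ, m % 2 = 1 → |(m : ℝ) - f n α| ≤ B * (f n α) ^ σ ε → OnCourse ε m)) ∧
    (∀ v : ℕ → ℝ, (∀ n, 1 ≤ v n) → (∀ t : ℝ, 0 < t → Summable fun n : ℕ => Real.exp (-(t * v n))) →
      Starshaped 1 (fun n x => x ^ (v n)) ∧ Conv 1 (fun n x => x ^ (v n)) 0) ∧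
    (∀ (a : ℝ) (g : ℝ → ℝ), 0 ≤ a → (∀ x y : ℝ, a < x → x ≤ y → g x / x ≤ g y / y) → (∀ x : ℝ, a < x → x < g x) →
      Starshaped a (fun n x => g^[n] x) ∧ Conv a (fun n x => g^[n] x) 0) := by
  obtain ⟨σ, N, s, hσ, hN, hs⟩ := Pool.Agent.Zk38.Hts.exists_sigma
  have base : ∀ (t : ℝ) (P : ℕ → Prop), 0 ≤ t → Pool.Agent.Zk38.Hts.Power t (Pool.Agent.Zk38.Hts.Bad P) →
      ∀ (a τ θ : ℝ) (f : ℕ → ℝ → ℝ), Starshaped a f → 0 ≤ τ → Conv a f τ → θ < 1 →
      ∃ F : Set ℝ, dimH F ≤ ENNReal.ofReal ((t + τ) / (1 - θ)) ∧ ∀ α : ℝ, a < α → α ∉ F → ∀ B : ℝ,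
        ∃ n₀ : ℕ, ∀ n : ℕ, n₀ ≤ n → ∀ m : ℕ, m % 2 = 1 → |(m : ℝ) - f n α| ≤ B * (f n α) ^ θ → P m := by
    intro t P ht hP a τ θ f hf hτ hv hθ
    obtain ⟨F, hF, h⟩ := Pool.Agent.R482.ST.windows (Pool.Agent.Zk38.Hts.Bad P) (fun m : ℕ => (m : ℝ)) hf hτ hv ht hθ hP
    refine ⟨F, hF, fun α hα hαF B => ?_⟩
    obtain ⟨n₀, hn₀⟩ := h α hα hαF B
    refine ⟨n₀, fun n hn m hm hw => ?_⟩
    by_contra hcon
    exact absurd hw (not_le.2 (hn₀ n hn m ⟨hm, hcon⟩))
  refine ⟨σ, hσ, fun β h0 h1 => Pool.Agent.Zk38.Hts.e_pos h0 h1, fun t P hP a τ θ f hf hτ hv hθ => ?_,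
    fun a f hf hv => ?_, fun v hv hs => Pool.Agent.R482.ST.ex_pow v hv hs,
    fun a g ha hg hg1 => Pool.Agent.R482.ST.ex_orbit a g ha hg hg1⟩
  · obtain ⟨t', h0, h1, -, h3⟩ := hP.power hσ hN hs
    obtain ⟨F, hF, h⟩ := base t' P h0 h3 a τ θ f hf hτ hv hθ
    refine ⟨F, hF.trans (ENNReal.ofReal_le_ofReal ?_), h⟩
    exact div_le_div_of_nonneg_right (by linarith) (by linarith)
  · -- almost every `α`
    have hT : ∀ (β θ : ℚ), ∀ᵐ α : ℝ, a < α → 0 < (β : ℝ) → (β : ℝ) < 2 / Real.log (16 / 9) → (θ : ℝ) < 1 - e β →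
        ∀ B : ℝ, ∃ n₀ : ℕ, ∀ n : ℕ, n₀ ≤ n →
          ∀ m : ℕ, m % 2 = 1 → |(m : ℝ) - f n α| ≤ B * (f n α) ^ (θ : ℝ) → Tall β m := by
      intro β θ
      by_cases hcond : 0 < (β : ℝ) ∧ (β : ℝ) < 2 / Real.log (16 / 9) ∧ (θ : ℝ) < 1 - e β
      · obtain ⟨g1, g2, g3⟩ := hcond
        obtain ⟨g4, g5⟩ := Pool.Agent.Zk38.Hts.e_pos g1 g2
        obtain ⟨F, hF, h⟩ := base (e β) (Tall β) g4.le (Pool.Agent.Zk38.Hts.count_tall g1 g2) a 0 θ f hf le_rfl hv
          (by linarith)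
        have hF0 := null_of_dim hF (by
          rw [div_lt_one (by linarith)]
          linarith)
        filter_upwards [compl_mem_ae_iff.2 hF0] with α hα hαa _ _ _
        exact h α hαa hα
      · refine Filter.Eventually.of_forall fun α _ g1 g2 g3 => absurd ⟨g1, g2, g3⟩ hcond
    have hC : ∀ n : ℕ, ∀ θ : ℚ, ∀ᵐ α : ℝ, a < α → (θ : ℝ) < 1 - s n → ∀ B : ℝ, ∃ n₀ : ℕ, ∀ k : ℕ, n₀ ≤ k →
        ∀ m : ℕ, m % 2 = 1 → |(m : ℝ) - f k α| ≤ B * (f k α) ^ (θ : ℝ) → OnCourse (1 / ((n : ℝ) + 2)) m := by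
      intro n θ
      obtain ⟨g1, g2, g3⟩ := hs n
      by_cases hcond : (θ : ℝ) < 1 - s n
      · obtain ⟨F, hF, h⟩ := base (s n) _ g1.le g3 a 0 θ f hf le_rfl hv (by linarith)
        have hF0 := null_of_dim hF (by
          rw [div_lt_one (by linarith)]
          linarith)
        filter_upwards [compl_mem_ae_iff.2 hF0] with α hα hαa _
        exact h α hαa hα
      · exact Filter.Eventually.of_forall fun α _ g1 => absurd g1 hcond
    have hT' := ae_all_iff.2 fun β : ℚ => ae_all_iff.2 fun θ : ℚ => hT β θ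
    have hC' := ae_all_iff.2 fun n : ℕ => ae_all_iff.2 fun θ : ℚ => hC n θ
    filter_upwards [hT', hC'] with α h1 h2 hα
    -- `f_n(α)` is large
    have hpos : ∀ n, 0 < f n α := fun n => (hf.2 n α α hα le_rfl).1
    obtain ⟨n₁, hn₁⟩ := Filter.eventually_atTop.1
      (Pool.Agent.R482.ST.large hpos one_pos (hv α hα 1 one_pos) 1)
    have hstep : ∀ (θ θ' B : ℝ) (n : ℕ), n₁ ≤ n → θ ≤ θ' → ∀ m : ℕ, |(m : ℝ) - f n α| ≤ B * (f n α) ^ θ →
        |(m : ℝ) - f n α| ≤ |B| * (f n α) ^ θ' := by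
      intro θ θ' B n hn hθ m hm
      have h3 := hn₁ n hn
      calc |(m : ℝ) - f n α| ≤ B * (f n α) ^ θ := hm
        _ ≤ |B| * (f n α) ^ θ := mul_le_mul_of_nonneg_right (le_abs_self B) (Real.rpow_nonneg (hpos n).le _)
        _ ≤ |B| * (f n α) ^ θ' :=
          mul_le_mul_of_nonneg_left (Real.rpow_le_rpow_of_exponent_le h3 hθ) (abs_nonneg B)
    constructor
    · intro β θ g1 g2 g3 B
      -- a rational `β'` and a rational `θ'`
      have hcont : ContinuousAt e β := Pool.Agent.Y966.LD.ee_contAt g1.le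
      have h4 : ∀ᶠ y in nhds β, e y < 1 - θ := hcont.eventually (gt_mem_nhds (by linarith))
      obtain ⟨δ, hδ, hball⟩ := Metric.eventually_nhds_iff.1 h4
      obtain ⟨β', h5, h6⟩ := exists_rat_btwn (lt_min g2 (show β < β + δ by linarith))
      have h7 : e β' < 1 - θ := hball (by
        rw [Real.dist_eq, abs_of_pos (by linarith)]
        have := h6.trans_le (min_le_right _ _)
        linarith)
      obtain ⟨θ', h8, h9⟩ := exists_rat_btwn (show θ < 1 - e β' by linarith)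
      obtain ⟨n₀, hn₀⟩ := h1 β' θ' hα (g1.trans h5) (h6.trans_le (min_le_left _ _)) h9 |B|
      refine ⟨max n₀ n₁, fun n hn m hm hw => ?_⟩
      exact (hn₀ n ((le_max_left _ _).trans hn) m hm
        (hstep θ θ' B n ((le_max_right _ _).trans hn) h8.le m hw)).mono h5.le
    · intro ε hε B
      obtain ⟨g1, g2⟩ := hN ε hε
      obtain ⟨g3, g4⟩ := hσ ε hε
      obtain ⟨θ', h8, h9⟩ := exists_rat_btwn (show σ ε < 1 - s (N ε) by rw [g2]; linarith)
      obtain ⟨n₀, hn₀⟩ := h2 (N ε) θ' hα h9 |B|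
      refine ⟨max n₀ n₁, fun n hn m hm hw => ?_⟩
      exact (hn₀ n ((le_max_left _ _).trans hn) m hm
        (hstep (σ ε) θ' B n ((le_max_right _ _).trans hn) h8.le m hw)).mono g1

end Pool.Agent.Results.MP_2b866c_nt.HeightsNearPowers
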