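import Pool.Agent.Zk38.Ht.D
import Pool.Agent.N733.TG.K
import Pool.Agent.N790.CM.C
import Pool.Agent.N760.IT.C
import Pool.Agent.N671.DA.Win
import Pool.Agent.N375.AV.D
import Pool.Agent.N375.AV.Ex

/-!
# Heights and passage times of ALL odd integers near the values of arithmetic functions

Let `e(β) < 1` be the exponent of the number of the odd integers `m ≤ x` of height at most `β log x`, for
`β < 2 / log (16 / 9) = 3.476…` (starting file `HeightCountsToTheMean`). For almost all `m` ALL odd integers `n` within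
`w ^ κ` of `w` have a height larger than `β log n`, if `e(β) + κ < 1`, where `w = φ(m)`, `σ(m)` or another multiplicative
function, or an iterate of Euler's function at `m`, or the sum of the prime factors of `m` or another composition of
additive functions, or any multiple `≤ N ^ B` of Carmichael's `λ(m)`, if `B (e(β) + κ) < 1`; and so for the denominators `w`
of good approximations to almost all points. The same holds with a power of `w` as the radius for the assertion that the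
trajectory passes below `n ^ t` after `(1 - t) (2 / log (16 / 9) + O(ε)) log n` steps, for all `ε ≤ t ≤ 1`.

These values are taken very often, an `m` has a power of `m` multiples of `λ(m)`, and the denominators of good
approximations are a thin set; so this does not follow from the sizes of the exceptional sets alone.
-/

set_option autoImplicit false

open Filter Topology
open Pool.Agent.N733.TG (LM Expanding lm_totient lm_sigma expanding_pow)
open Pool.Agent.N790.CM (FewTimes Carries fewTimes_pred fewTimes_poly pred_dvd_carmichael)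
open Pool.Agent.N375.AV (PD comp pd_additive pd_largest pd_kempner)
open Pool.Agent.N671.DA (Solves)
open Pool.Agent.N760.IT (lm_id)
open Pool.Agent.Zk38.Hts (Tall OnCourse Case e Bad Power)

namespace Pool.Agent.Results.MP_2b866c_nt.HeightsNearValues

/-- All odd integers `n` with `|n - z| ≤ r` have the property `P`. -/
def AllNear (P : ℕ → Prop) (z r : ℝ) : Prop := ∀ n : ℕ, n % 2 = 1 → |(n : ℝ) - z| ≤ r → P n

lemma allNear_of {P : ℕ → Prop} {z r : ℝ} (h : ∀ t ∈ Bad P, ¬ |((t : ℕ) : ℝ) - z| ≤ r) : AllNear P z r := by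
  intro n hn hw
  by_contra hcon
  exact h n ⟨hn, hcon⟩ hw

lemma almost {P Q : ℕ → Prop} (h : Pool.Agent.N826.IT.Orb.AlmostAll P) (hPQ : ∀ m, P m → Q m) :
    Tendsto (fun N : ℕ => ({m : ℕ | 1 ≤ m ∧ m ≤ N ∧ ¬ Q m}.ncard : ℝ) / N) atTop (𝓝 0) := by
  classical
  unfold Pool.Agent.N826.IT.Orb.AlmostAll at h
  refine squeeze_zero (fun N => by positivity) (fun N => ?_) h
  refine div_le_div_of_nonneg_right ?_ (Nat.cast_nonneg _)
  rw [← Set.ncard_coe_finset]
  refine Nat.cast_le.2 (Set.ncard_le_ncard ?_ (Finset.finite_toSet _))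
  rintro m ⟨g1, g2, g3⟩
  exact Finset.mem_coe.2 (Finset.mem_filter.2 ⟨Finset.mem_Icc.2 ⟨g1, g2⟩, fun hcon => g3 (hPQ m hcon)⟩)

/-- **Theorem.** There is a function `σ` with `0 < σ(ε) < 1` such that the following holds for each of the properties `P` of
`Case` with its exponent `s < 1`: `P n` is the height of `n` is larger than `β log n`, `0 < β < 2 / log (16 / 9)` and
`s = e(β) < 1`; or `P n` is `OnCourse ε n`, `ε > 0` and `s = 1 - σ(ε)`. Let `G` have steps `≥ a > 0` and growth at most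
`v ^ d`, and let `κ ≥ 0`.

(1) Let `d s + κ < 1` and let `f` be multiplicative and positive, of at most polynomial growth, with `f p ≤ M p` at the
large primes, and injective there. For every `U` and all large `N`, for all `m ≤ N` but `N / (log N) ^ U`, ALL odd integers
`n` with `|n - G (f m)| ≤ f(m) ^ κ` have the property `P`.

(2) Let `d s + κ < 1`, and `f` as in (1). There is `K(m) → ∞` such that for almost all `m` (natural density), for all
`k ≤ K(m)`, with `w = f (φ(φ(⋯ φ(m))))`, `k` times `φ`, ALL odd integers `n` with `|n - G w| ≤ w ^ κ` have the property `P`.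

(3) Let `B ≥ 1`, `B (d s + κ) < 1`, and let `f` take each positive value at most `T` times at the primes. For every `U`
and all large `N`, for all `m ≤ N` but `N / (log N) ^ U`: for EVERY `w` with `1 ≤ w ≤ N ^ B` and `f(p) ∣ w` for all primes
`p > exp (√(log N))` which divide `m` exactly once, ALL odd integers `n` with `|n - G w| ≤ w ^ κ` have the property `P`.

(4) Let `d s + κ < 1` and let `F = f_1 ∘ ⋯ ∘ f_r` be a composition of functions dominated by the largest prime factor.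
There are `η > 0`, `K` such that for all `N ≥ 1`, for all `m ≤ N` but `K N exp (-η (log N) ^ (1 / (r + 1)))`, ALL odd
integers `n` with `|n - G (F m)| ≤ F(m) ^ κ` have the property `P`.

(5) Let `κ ≤ 1`, let `y` be in `ℝ ^ k` and `τ > 0`. For all `x` in `ℝ ^ k` outside a set of Hausdorff dimension at most
`(k + d s + κ) / (1 + τ)`, for all `b` and all large `q` with `‖q x_j - y_j‖ ≤ b q ^ (-τ)` for all `j`, ALL odd integers `n`
with `|n - G q| ≤ q ^ κ` have the property `P`.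

(6) Examples: `f(m) = m`, Euler's function and the sum of the divisors for (1) and (2); `f(p) = p - 1`, for which every
multiple of Carmichael's function `λ(m)` is admissible, and `f(p) = |Q(p)|` for (3); additive functions, the largest prime
factor and Kempner's function for (4); and `G(v) = α v ^ d` with `α > 0`, `d ≥ 1`. -/
theorem result : ∃ σ : ℝ → ℝ, (∀ ε : ℝ, 0 < ε → 0 < σ ε ∧ σ ε < 1) ∧ ∀ (s : ℝ) (P : ℕ → Prop), Case σ s P → s < 1 ∧
    (∀ (G : ℕ → ℝ) (d : ℝ), Expanding G d → ∀ κ : ℝ, 0 ≤ κ →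
      (d * s + κ < 1 → ∀ f : ℕ → ℕ, LM f → ∀ U : ℕ, ∃ N₀ : ℕ, ∀ N : ℕ, N₀ ≤ N →
        ({m : ℕ | 1 ≤ m ∧ m ≤ N ∧ ¬ AllNear P (G (f m)) ((f m : ℝ) ^ κ)}.ncard : ℝ) ≤ N / Real.log N ^ U) ∧
      (d * s + κ < 1 → ∀ f : ℕ → ℕ, LM f → ∃ K : ℕ → ℕ, Tendsto K atTop atTop ∧
        Tendsto (fun N : ℕ => ({m : ℕ | 1 ≤ m ∧ m ≤ N ∧ ¬ ∀ k ≤ K m,
          AllNear P (G (f (Nat.totient^[k] m))) ((f (Nat.totient^[k] m) : ℝ) ^ κ)}.ncard : ℝ) / N) atTop (𝓝 0)) ∧
      (∀ B : ℝ, 1 ≤ B → B * (d * s + κ) < 1 → ∀ (f : ℕ → ℕ) (T : ℕ), FewTimes f T → ∀ U : ℕ, ∃ N₀ : ℕ, ∀ N : ℕ, N₀ ≤ N →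
        ({m : ℕ | 1 ≤ m ∧ m ≤ N ∧ ¬ ∀ w : ℕ, 1 ≤ w → (w : ℝ) ≤ (N : ℝ) ^ B →
          Carries f (Real.exp √(Real.log N)) m w → AllNear P (G w) ((w : ℝ) ^ κ)}.ncard : ℝ) ≤ N / Real.log N ^ U) ∧
      (d * s + κ < 1 → ∀ fs : List (ℕ → ℕ), (∀ f ∈ fs, PD f) → ∃ η K : ℝ, 0 < η ∧ ∀ N : ℕ, 1 ≤ N →
        ({m : ℕ | 1 ≤ m ∧ m ≤ N ∧ ¬ AllNear P (G (comp fs m)) ((comp fs m : ℝ) ^ κ)}.ncard : ℝ) ≤
          K * N * Real.exp (-(η * Real.log N ^ ((1 : ℝ) / (fs.length + 1))))) ∧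
      (κ ≤ 1 → ∀ (k : ℕ) (y : Fin k → ℝ) (τ : ℝ), 0 < τ →
        ∃ Z : Set (Fin k → ℝ), dimH Z ≤ ENNReal.ofReal ((k + (d * s + κ)) / (1 + τ)) ∧
          ∀ x, x ∉ Z → ∀ b : ℝ, ∃ q₀ : ℕ, ∀ q : ℕ, q₀ ≤ q → Solves x y q (b * (q : ℝ) ^ (-τ)) →
            AllNear P (G q) ((q : ℝ) ^ κ))) ∧
    (LM (fun m => m) ∧ LM Nat.totient ∧ LM (fun m => ∑ d ∈ m.divisors, d)) ∧
    (FewTimes (fun p => p - 1) 1 ∧
      ∀ (y : ℝ) (m w : ℕ), ArithmeticFunction.carmichael m ∣ w → Carries (fun p => p - 1) y m w) ∧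
    (∀ Q : Polynomial ℤ, 1 ≤ Q.natDegree → FewTimes (fun p => (Q.eval (p : ℤ)).natAbs) (2 * Q.natDegree)) ∧
    ((∀ f : ℕ → ℕ, (∀ a b : ℕ, Nat.Coprime a b → f (a * b) = f a + f b) →
      (∃ C : ℕ, ∀ q j : ℕ, q.Prime → 1 ≤ j → f (q ^ j) ≤ C * q ^ j) →
      (∃ P : ℕ, ∀ p q : ℕ, p.Prime → q.Prime → P ≤ p → P ≤ q → f p = f q → p = q) → PD f) ∧
      PD (fun n => n.primeFactors.sup id) ∧ PD (fun n => sInf {k : ℕ | n ∣ k.factorial})) ∧
    ∀ α d : ℝ, 0 < α → 1 ≤ d → Expanding (fun v => α * (v : ℝ) ^ d) d := by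
  obtain ⟨σ, N, sN, hσ, hN, hs⟩ := Pool.Agent.Zk38.Hts.exists_sigma
  refine ⟨σ, hσ, fun s P hP => ?_⟩
  obtain ⟨s', hs0, hs1, hslt, hpow⟩ := hP.power hσ hN hs
  refine ⟨hslt, fun G d hG κ hκ => ?_, ⟨lm_id, lm_totient, lm_sigma⟩,
    ⟨fewTimes_pred, fun y m w h p hp _ hpm _ => (pred_dvd_carmichael hp hpm).trans h⟩, fewTimes_poly,
    ⟨fun f a1 a2 a3 => pd_additive a1 a2 a3, pd_largest, pd_kempner⟩, fun α d hα hd => expanding_pow hα hd⟩
  have hd := hG.one_le
  have hds : d * s' ≤ d * s := mul_le_mul_of_nonneg_left hs1 (by linarith)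
  have hfin : ∀ (N : ℕ) (P : ℕ → Prop), {m : ℕ | 1 ≤ m ∧ m ≤ N ∧ P m}.Finite := fun N P =>
    (Set.finite_Icc 1 N).subset (fun m hm => ⟨hm.1, hm.2.1⟩)
  refine ⟨fun h1 f hf U => ?_, fun h1 f hf => ?_, fun B hB h1 f T hf U => ?_, fun h1 fs hfs => ?_,
    fun hκ1 k y τ hτ => ?_⟩
  · obtain ⟨N₀, hN₀⟩ := Pool.Agent.N733.TG.keep_windows (Bad P) (fun t : ℕ => (t : ℝ)) hf hG hs0 (κ := κ) hκ
      (by linarith) hpow U
    refine ⟨N₀, fun N hN => le_trans ?_ (hN₀ N hN)⟩
    refine Nat.cast_le.2 (Set.ncard_le_ncard ?_ (hfin _ _))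
    rintro m ⟨g1, g2, g3⟩
    refine ⟨g1, g2, ?_⟩
    by_contra hcon
    push Not at hcon
    exact g3 (allNear_of fun t ht => not_le.2 (hcon t ht))
  · obtain ⟨K, hK, h2⟩ := Pool.Agent.N760.IT.orbit_windows (Bad P) (fun t : ℕ => (t : ℝ)) hf hG hs0 (κ := κ) hκ
      (by linarith) hpow
    exact ⟨K, hK, almost h2 fun m hm k hk => allNear_of (hm k hk)⟩
  · have h2 : B * (d * s' + κ) < 1 :=
      lt_of_le_of_lt (mul_le_mul_of_nonneg_left (by linarith) (by linarith)) h1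
    exact ((Pool.Agent.N790.CM.keep_windows (Bad P) (fun t : ℕ => (t : ℝ)) hG hs0 (κ := κ) hκ hB h2 hpow).mono
      fun w _ hw => allNear_of hw) f T hf U
  · obtain ⟨η, K, hη, h5⟩ := Pool.Agent.N375.AV.windows (Bad P) (fun t : ℕ => (t : ℝ)) fs hfs hG hs0 (κ := κ) hκ
      (by linarith) hpow
    refine ⟨η, K, hη, fun N hN => le_trans ?_ (h5 N hN)⟩
    refine Nat.cast_le.2 (Set.ncard_le_ncard ?_ (hfin _ _))
    rintro m ⟨g1, g2, g3⟩
    refine ⟨g1, g2, ?_⟩
    by_contra hcon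
    push Not at hcon
    exact g3 (allNear_of fun t ht => not_le.2 (hcon t ht))
  · have hG' : Pool.Agent.N671.DA.Expanding G d := ⟨hG.one_le, hG.step, hG.growth⟩
    obtain ⟨Z, hZ, h5⟩ := Pool.Agent.N671.DA.approx_windows (Bad P) (fun t : ℕ => (t : ℝ)) hG' hs0 (κ := κ) hκ hκ1
      hpow y hτ
    refine ⟨Z, hZ.trans (ENNReal.ofReal_le_ofReal ?_), fun x hx b => ?_⟩
    · exact div_le_div_of_nonneg_right (by linarith) (by linarith)
    · obtain ⟨q₀, hq₀⟩ := h5 x hx b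
      exact ⟨q₀, fun q hq hsol => allNear_of (hq₀ q hq hsol)⟩

end Pool.Agent.Results.MP_2b866c_nt.HeightsNearValues
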