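import Pool.Agent.Zk38.Ht.D
import Pool.Agent.Zk73.OR.F

/-!
# Heights and passage times of ALL odd integers near multiplicative orders

Let `e(β) < 1` be the exponent of the number of the odd integers `m ≤ x` of height at most `β log x`, for
`β < 2 / log (16 / 9) = 3.476…` (starting file `HeightCountsToTheMean`), and `θ = e(β) + κ`. ALL odd integers `n` within
`w ^ κ` of `w` have a height larger than `β log n`

* for `w` the multiplicative order of `a` modulo `p` (the period length of `1 / p` in base `a`), for all integers `a` with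
  `2 ≤ |a| ≤ p ^ c`, `c < 1`, and all primes `p ≤ N` but `O (N ^ (1 - η))`, if `θ < 1`,
* for every divisor `w ≥ m ^ δ` of every integer near `m`, for all `m ≤ N` but `O (N ^ (1 - η))`, if `θ < 1`,
* for EVERY exponent `w ≤ N ^ B` with `m ∣ a ^ w - 1` for some `a` with `2 ≤ |a| ≤ exp (c' √(log N))`, for all `m ≤ N` but
  `N / (log N) ^ A`, if `B θ < 1 / 2`; for instance for all multiples of the period length of `1 / m`,
* for EVERY `w ≤ N ^ B` with `gcd (w, p - 1) ≥ p ^ (1 - l)` for all large primes `p` dividing `m` exactly once, for all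
  `m ≤ N` but `N / (log N) ^ A`, if `B θ + l < 1`.

The same holds with a power of `w` as the radius for the assertion that the trajectory passes below `n ^ t` after
`(1 - t) (2 / log (16 / 9) + O(ε)) log n` steps, for all `ε ≤ t ≤ 1`.

The tool (`Pool/Agent/Zk73/OR`): a set with `O(X^θ)` elements up to `X` is avoided by the orders modulo almost all primes and by
the large divisors of almost all integers if `θ < 1`; and outside a set of `N / (log N)^A` numbers `m ≤ N`, every `w ≤ N^B` has
`gcd (w, p - 1) ≥ p^(1 - l)` for all large `p ∣ m` for at most `N^(l + ε)` of the `m`. For every `l > 0`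
all multiples of Carmichael's function `λ(m)` are among these `w`; so this extends the tool `N790/CM` of the starting files.
-/

set_option autoImplicit false

open Pool.Agent.N733.TG (Expanding expanding_pow)
open Pool.Agent.Zk73.OR (Everywhere keep_windows)
open Pool.Agent.Zk38.Hts (Tall OnCourse Case e Bad Power)

namespace Pool.Agent.Results.MP_2b866c_nt.MultiplicativeOrders

/-- All odd integers `n` with `|n - z| ≤ r` have the property `P`. -/
def AllNear (P : ℕ → Prop) (z r : ℝ) : Prop := ∀ n : ℕ, n % 2 = 1 → |(n : ℝ) - z| ≤ r → P n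

/-- **Theorem.** There is a function `σ` with `0 < σ(ε) < 1` such that the following holds for each of the properties `P` of
`Case` with its exponent `s < 1`: `P n` is the height of `n` is larger than `β log n`, `0 < β < 2 / log (16 / 9)` and
`s = e(β) < 1`; or `P n` is `OnCourse ε n`, `ε > 0` and `s = 1 - σ(ε)`. Let `G` have steps `≥ a > 0` and growth at most
`v ^ d`, for example `G v = α v ^ d` with `α > 0`, `d ≥ 1`, and let `0 ≤ κ ≤ 1`. The four statements of `Everywhere`, about
divisors of almost all integers, orders modulo almost all primes, numbers sharing large divisors with `p - 1` for the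
large primes `p` dividing `m`, and exponents `w` with `m ∣ a ^ w - 1`, hold with `θ = d s + κ` for the property: ALL odd
integers `n` with `|n - G w| ≤ w ^ κ` have the property `P`. -/
theorem result : ∃ σ : ℝ → ℝ, (∀ ε : ℝ, 0 < ε → 0 < σ ε ∧ σ ε < 1) ∧ ∀ (s : ℝ) (P : ℕ → Prop), Case σ s P → s < 1 ∧
    (∀ (G : ℕ → ℝ) (d : ℝ), Expanding G d → ∀ κ : ℝ, 0 ≤ κ → κ ≤ 1 →
      Everywhere (d * s + κ) (fun w => AllNear P (G w) ((w : ℝ) ^ κ))) ∧
    ∀ α d : ℝ, 0 < α → 1 ≤ d → Expanding (fun v => α * (v : ℝ) ^ d) d := by
  obtain ⟨σ, N, sN, hσ, hN, hs⟩ := Pool.Agent.Zk38.Hts.exists_sigma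
  refine ⟨σ, hσ, fun s P hP => ?_⟩
  obtain ⟨s', hs0, hs1, hslt, hpow⟩ := hP.power hσ hN hs
  refine ⟨hslt, fun G d hG κ hκ hκ1 => ?_, fun α d hα hd => expanding_pow hα hd⟩
  have hd := hG.one_le
  have hds : d * s' ≤ d * s := mul_le_mul_of_nonneg_left hs1 (by linarith)
  have key : Everywhere (d * s' + κ) (fun w => AllNear P (G w) ((w : ℝ) ^ κ)) :=
    (keep_windows (Bad P) (fun t : ℕ => (t : ℝ)) hG hs0 (κ := κ) hκ hκ1 hpow).mono fun w _ hw => by
      intro n hn h
      by_contra hcon
      exact hw n ⟨hn, hcon⟩ h
  exact key.le_exponent (by linarith)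

end Pool.Agent.Results.MP_2b866c_nt.MultiplicativeOrders
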