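import Pool.Agent.Zk82.OS.Main
import Pool.Agent.Zk38.Ht.D

/-!
# Heights and passage times of all odd integers which are made of pieces of ONE typical real number

Let `N_1, …, N_R` be any real functions of `n`, for instance `N_k(n) = n` for all `k`, or `N_k(n) = n ^ k`, or `N_k(n) = √(k n)`.
For almost EVERY real number `θ` we consider the odd integers `n` such that each `N_k(n)` has a string of about `v_k log n / log b`
digits in common with `θ` (`|N_k(n) / b ^ i - b ^ m θ - j| ≤ n ^ (- v_k)` for an integer `j`), at any place (`b ^ i ≤ b n ^ w`), where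
the `R` strings of `θ` are at pairwise disjoint places up to the `n ^ u`-th digit of `θ`. All but finitely many of them have

* a height larger than `β log n`, if `β < 2 / log (16 / 9) = 3.476…` and `∑ v_k > e(β) + R u`, `e(β) < 1`,
* a trajectory which passes below `n ^ t` after `(1 - t) (2 / log (16 / 9)) log n` steps up to an error of at most `ε log n`,
  for all `ε ≤ t ≤ 1`, if `∑ v_k > 1 - σ(ε) + R u`, `0 < σ(ε) < 1`.

So, for `N_k(n) = n`, it is enough that a certain proportion, less than one, of the digits of `n` consists of `R` pieces, of any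
lengths, which occur in `θ` at disjoint places, in any order. There is one null set for all `b`, `u`, `v`, `β`, `ε`.

The number of the exceptional `n` up to `X` is `O(X ^ (s + δ))`, `s = e(β)` or `s = 1 - 2 σ(ε)` (starting files
`HeightCountsToTheMean` and `PowerSavingLaw` of MP_a1568a_nt, in the form of `Zk38/Ht/D`); the tool for digit strings is
`Zk82/OS` (helper82, new; the case `R = 1` is the starting file `R942/HX`, there used for Hall's conjecture).
-/

set_option autoImplicit false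

namespace Pool.Agent.Results.MP_2b866c_nt.OneTypicalNumber

open MeasureTheory Filter Topology
open Pool.Agent.R942.HX (Sparse)
open Pool.Agent.Zk82.OS (Strings one_number)
open Pool.Agent.Zk38.Hts (Tall OnCourse Case e S Bad Power exists_sigma count_tall e_pos)

lemma sparse_of {s : ℝ} {P : ℕ → Prop} (h : Power s (Bad P)) : Sparse (fun n : ℕ => (n : ℝ)) (Bad P) s := by
  refine ⟨fun n hn => ?_, fun ε hε => ?_⟩
  · have h1 : n % 2 = 1 := hn.1
    have h2 : 1 ≤ n := by omega
    show (1 : ℝ) ≤ (n : ℝ)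
    exact_mod_cast h2
  · obtain ⟨K, hK⟩ := h ε hε
    exact ⟨K, hK⟩

lemma e_cont {β : ℝ} (hβ : 0 < β) : ContinuousAt e β := by
  have hl2 : 0 < Real.log 2 := Real.log_pos (by norm_num)
  have hl3 : 0 < Real.log 3 := Real.log_pos (by norm_num)
  have hS : S β ≠ 0 := by
    have : 0 < S β := by
      unfold S
      positivity
    exact this.ne'
  have hc : ContinuousAt S β := by
    have : Continuous S := by
      unfold S
      fun_prop
    exact this.continuousAt
  have h1 : ContinuousAt (fun t : ℝ => t / S t) β := continuousAt_id.div hc hS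
  have h2 : ContinuousAt (fun t : ℝ => Real.binEntropy (t / S t)) β :=
    ContinuousAt.comp (f := fun t : ℝ => t / S t) (g := Real.binEntropy) Real.binEntropy_continuous.continuousAt h1
  exact (hc.mul h2).sub (continuousAt_id.mul continuousAt_const)

/-- **Theorem.** There is a function `σ` with `0 < σ(ε) < 1` such that the following holds. Let `w ≥ 0` and let
`N_1, …, N_R` be any real functions on `ℕ`. For almost every real `θ`, for each of the properties `P` of `Case` with its
exponent `s < 1` (`P n`: the height of `n` is larger than `β log n`, `0 < β < 2 / log (16 / 9)` and `s = e(β)`; or `P n`: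
`OnCourse ε n`, `ε > 0` and `s = 1 - σ(ε)`), for all `b ≥ 2`, `u ≥ 0` and `v_k > 0` with `∑ v_k > s + R u`: all but finitely
many of the odd integers `n` such that the `N_k(n)` have strings in common with `θ` of precision `n ^ (- v_k)`,
`b ^ i ≤ b n ^ w`, at pairwise disjoint places of `θ` up to its `n ^ u`-th digit (`Strings`), have the property `P`. -/
theorem result : ∃ σ : ℝ → ℝ, (∀ ε : ℝ, 0 < ε → 0 < σ ε ∧ σ ε < 1) ∧
    ∀ (R : ℕ) (w : ℝ), 0 ≤ w → ∀ N : Fin R → ℕ → ℝ, ∀ᵐ θ : ℝ,
      ∀ (s : ℝ) (P : ℕ → Prop), Case σ s P → s < 1 ∧ ∀ b : ℕ, 2 ≤ b → ∀ (u : ℝ) (v : Fin R → ℝ), 0 ≤ u →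
        (∀ k, 0 < v k) → s + R * u < ∑ k, v k →
        {n : ℕ | n % 2 = 1 ∧ Strings b θ (fun k => N k n) ((n : ℝ) ^ w) ((n : ℝ) ^ u) (fun k => (n : ℝ) ^ (-(v k))) ∧
          ¬ P n}.Finite := by
  obtain ⟨σ, M, sM, hσ, hM, hs⟩ := exists_sigma
  refine ⟨σ, hσ, fun R w hw N => ?_⟩
  have key1 : ∀ᵐ θ : ℝ, ∀ a : ℚ, (0 : ℝ) < a → (a : ℝ) < 2 / Real.log (16 / 9) → ∀ b : ℕ, 2 ≤ b →
      ∀ (u : ℝ) (v : Fin R → ℝ), 0 ≤ u → (∀ k, 0 < v k) → e (a : ℝ) + R * u < ∑ k, v k →
      {n : ℕ | n ∈ Bad (Tall a) ∧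
        Strings b θ (fun k => N k n) ((n : ℝ) ^ w) ((n : ℝ) ^ u) (fun k => (n : ℝ) ^ (-(v k)))}.Finite := by
    rw [ae_all_iff]
    intro a
    by_cases h : (0 : ℝ) < a ∧ (a : ℝ) < 2 / Real.log (16 / 9)
    · filter_upwards [one_number (sparse_of (count_tall h.1 h.2)) (e_pos h.1 h.2).1.le N hw] with θ hθ _ _
      exact hθ
    · filter_upwards with θ h1 h2
      exact absurd ⟨h1, h2⟩ h
  have key2 : ∀ᵐ θ : ℝ, ∀ j : ℕ, ∀ b : ℕ, 2 ≤ b → ∀ (u : ℝ) (v : Fin R → ℝ), 0 ≤ u → (∀ k, 0 < v k) →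
      sM j + R * u < ∑ k, v k →
      {n : ℕ | n ∈ Bad (OnCourse (1 / ((j : ℝ) + 2))) ∧
        Strings b θ (fun k => N k n) ((n : ℝ) ^ w) ((n : ℝ) ^ u) (fun k => (n : ℝ) ^ (-(v k)))}.Finite := by
    rw [ae_all_iff]
    intro j
    exact one_number (sparse_of (hs j).2.2) (hs j).1.le N hw
  filter_upwards [key1, key2] with θ h1 h2 s P hP
  rcases hP with ⟨β, hβ0, hβ1, rfl, hP⟩ | ⟨ε, hε, rfl, hP⟩
  · refine ⟨(e_pos hβ0 hβ1).2, fun b hb u v hu hv0 hv => ?_⟩
    have hcont : ContinuousAt (fun t : ℝ => e t + R * u) β := (e_cont hβ0).add continuousAt_const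
    obtain ⟨δ, hδ, hball⟩ := Metric.eventually_nhds_iff.1 (hcont.eventually_lt continuousAt_const hv)
    obtain ⟨a, ha1, ha2⟩ := exists_rat_btwn (show β < min (2 / Real.log (16 / 9)) (β + δ) from
      lt_min hβ1 (by linarith))
    have ha3 := ha2.trans_le (min_le_right (2 / Real.log (16 / 9)) (β + δ))
    have ha4 := ha2.trans_le (min_le_left (2 / Real.log (16 / 9)) (β + δ))
    have ha5 : e (a : ℝ) + R * u < ∑ k, v k := hball (by
      rw [Real.dist_eq, abs_lt]
      constructor <;> linarith)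
    refine (h1 a (hβ0.trans ha1) ha4 b hb u v hu hv0 ha5).subset ?_
    rintro n ⟨p1, p2, p3⟩
    exact ⟨⟨p1, fun h => p3 ((hP n).2 (h.mono ha1.le))⟩, p2⟩
  · obtain ⟨g1, g2⟩ := hM ε hε
    obtain ⟨g3, g4⟩ := hσ ε hε
    refine ⟨by linarith, fun b hb u v hu hv0 hv => ?_⟩
    refine (h2 (M ε) b hb u v hu hv0 (by linarith)).subset ?_
    rintro n ⟨p1, p2, p3⟩
    exact ⟨⟨p1, fun h => p3 ((hP n).2 (h.mono g1))⟩, p2⟩

end Pool.Agent.Results.MP_2b866c_nt.OneTypicalNumber
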